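import Pool.Agent.Helper68.LM2.St

/-!
# Project LM2 (MP_cb927e_an), module CZS: Calderon-Zygmund squares
-/

set_option autoImplicit false

open MeasureTheory Set Filter Topology
open scoped ENNReal

namespace Pool.Agent.Helper81.LM2

open Pool.Agent.Helper68.LM2 Pool.Agent.Helper68.LM

namespace CZS

/-- index of the square of side `2^q` containing `x` -/
noncomputable def ix (q : ℤ) (x : ℝ × ℝ) : ℤ × ℤ := (⌊x.1 / (2 : ℝ) ^ q⌋, ⌊x.2 / (2 : ℝ) ^ q⌋)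

/-- the square of side `2^q` containing `x` -/
noncomputable def DS (q : ℤ) (x : ℝ × ℝ) : Set (ℝ × ℝ) := sqr q (ix q x).1 (ix q x).2

/-- the square of the triple `s` -/
def SS (s : ℤ × ℤ × ℤ) : Set (ℝ × ℝ) := sqr s.1 s.2.1 s.2.2

/-- corner -/
noncomputable def pt (s : ℤ × ℤ × ℤ) : ℝ × ℝ := ((2 : ℝ) ^ s.1 * s.2.1, (2 : ℝ) ^ s.1 * s.2.2)

theorem mem_DS (q : ℤ) (x : ℝ × ℝ) : x ∈ DS q x := ⟨rfl, rfl⟩

theorem ix_eq {s : ℤ × ℤ × ℤ} {x : ℝ × ℝ} (h : x ∈ SS s) : ix s.1 x = s.2 :=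
  Prod.ext h.1 h.2

theorem DS_eq_SS (q : ℤ) (x : ℝ × ℝ) : DS q x = SS (q, ix q x) := rfl

theorem DS_of_mem {s : ℤ × ℤ × ℤ} {x : ℝ × ℝ} (h : x ∈ SS s) : DS s.1 x = SS s := by
  rw [DS_eq_SS, ix_eq h]

theorem sqr_eq (q i j : ℤ) : sqr q i j =
    Ico ((2 : ℝ) ^ q * i) ((2 : ℝ) ^ q * (i + 1)) ×ˢ Ico ((2 : ℝ) ^ q * j) ((2 : ℝ) ^ q * (j + 1)) := by
  have h2 : (0 : ℝ) < (2 : ℝ) ^ q := by positivity
  have key : ∀ (y : ℝ) (i : ℤ), ⌊y / (2 : ℝ) ^ q⌋ = i ↔ y ∈ Ico ((2 : ℝ) ^ q * i) ((2 : ℝ) ^ q * (i + 1)) := by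
    intro y i
    rw [Int.floor_eq_iff, le_div_iff₀ h2, div_lt_iff₀ h2, mem_Ico]
    constructor
    · rintro ⟨h, h'⟩
      exact ⟨by linarith, by linarith⟩
    · rintro ⟨h, h'⟩
      exact ⟨by linarith, by linarith⟩
  ext z
  rw [mem_prod, ← key, ← key]
  rfl

theorem pt_mem (s : ℤ × ℤ × ℤ) : pt s ∈ SS s := by
  unfold SS
  rw [sqr_eq]
  have h2 : (0 : ℝ) < (2 : ℝ) ^ s.1 := by positivity
  refine ⟨⟨le_rfl, ?_⟩, ⟨le_rfl, ?_⟩⟩
  · change (2 : ℝ) ^ s.1 * s.2.1 < (2 : ℝ) ^ s.1 * (s.2.1 + 1)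
    nlinarith
  · change (2 : ℝ) ^ s.1 * s.2.2 < (2 : ℝ) ^ s.1 * (s.2.2 + 1)
    nlinarith

theorem meas_sqr (q i j : ℤ) : MeasurableSet (sqr q i j) := by
  rw [sqr_eq]
  exact measurableSet_Ico.prod measurableSet_Ico

theorem vol_sqr (q i j : ℤ) : volume (sqr q i j) = ENNReal.ofReal ((4 : ℝ) ^ q) := by
  have h2 : (0 : ℝ) < (2 : ℝ) ^ q := by positivity
  rw [sqr_eq, Measure.volume_eq_prod, Measure.prod_prod, Real.volume_Ico, Real.volume_Ico,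
    show (2 : ℝ) ^ q * ((i : ℝ) + 1) - (2 : ℝ) ^ q * i = (2 : ℝ) ^ q by ring,
    show (2 : ℝ) ^ q * ((j : ℝ) + 1) - (2 : ℝ) ^ q * j = (2 : ℝ) ^ q by ring,
    ← ENNReal.ofReal_mul h2.le, ← mul_zpow]
  norm_num

/-- centre of the square containing `x` -/
noncomputable def cen (q : ℤ) (x : ℝ × ℝ) : ℝ × ℝ :=
  ((2 : ℝ) ^ q * (⌊x.1 / (2 : ℝ) ^ q⌋ + 1 / 2), (2 : ℝ) ^ q * (⌊x.2 / (2 : ℝ) ^ q⌋ + 1 / 2))

theorem ball_eq (q : ℤ) (x : ℝ × ℝ) : Metric.closedBall (cen q x) ((2 : ℝ) ^ q / 2) =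
    Icc ((2 : ℝ) ^ q * ⌊x.1 / (2 : ℝ) ^ q⌋) ((2 : ℝ) ^ q * (⌊x.1 / (2 : ℝ) ^ q⌋ + 1)) ×ˢ
      Icc ((2 : ℝ) ^ q * ⌊x.2 / (2 : ℝ) ^ q⌋) ((2 : ℝ) ^ q * (⌊x.2 / (2 : ℝ) ^ q⌋ + 1)) := by
  rw [cen, ← closedBall_prod_same, Real.closedBall_eq_Icc, Real.closedBall_eq_Icc]
  congr 2 <;> ring

theorem ball_ae (q : ℤ) (x : ℝ × ℝ) :
    (DS q x : Set (ℝ × ℝ)) =ᵐ[volume] Metric.closedBall (cen q x) ((2 : ℝ) ^ q / 2) := by
  rw [ball_eq, DS, sqr_eq, Measure.volume_eq_prod]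
  exact Measure.set_prod_ae_eq Ico_ae_eq_Icc Ico_ae_eq_Icc

theorem mem_ball (q : ℤ) (x : ℝ × ℝ) : x ∈ Metric.closedBall (cen q x) ((2 : ℝ) ^ q / 2) := by
  rw [ball_eq]
  have h := mem_DS q x
  rw [DS, sqr_eq] at h
  exact ⟨Ico_subset_Icc_self h.1, Ico_subset_Icc_self h.2⟩

theorem intg {F : ℝ × ℝ → ℝ} (hF : BR F) : Integrable F := by
  obtain ⟨hm, K, hK, hK'⟩ := hF
  have h1 : Integrable (fun x => (Metric.closedBall (0 : ℝ × ℝ) K).indicator (fun _ => K) x) := by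
    refine (integrable_indicator_iff Metric.isClosed_closedBall.measurableSet).2 ?_
    exact integrableOn_const (hs := (isCompact_closedBall (0 : ℝ × ℝ) K).measure_lt_top.ne) (hC := by simp)
  refine h1.mono' hm.aestronglyMeasurable (ae_of_all _ fun x => ?_)
  by_cases hx : x ∈ Metric.closedBall (0 : ℝ × ℝ) K
  · rw [indicator_of_mem hx]; exact hK x
  · rw [indicator_of_notMem hx, hK' x (by simpa using hx), norm_zero]

/-- dyadic differentiation -/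
theorem ld {F : ℝ × ℝ → ℝ} (hF : BR F) : ∀ᵐ x : ℝ × ℝ,
    Tendsto (fun j : ℕ => ((4 : ℝ) ^ (-(j : ℤ)))⁻¹ * ∫ z in DS (-(j : ℤ)) x, F z) atTop (𝓝 (F x)) := by
  have key := IsUnifLocDoublingMeasure.ae_tendsto_average (μ := (volume : Measure (ℝ × ℝ)))
    (intg hF).locallyIntegrable 1
  filter_upwards [key] with x hx
  have hx' := hx (ι := ℕ) (l := atTop) (fun j => cen (-(j : ℤ)) x)
    (fun j => (2 : ℝ) ^ (-(j : ℤ)) / 2) ?_ ?_
  · refine hx'.congr fun j => ?_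
    have hball : (volume : Measure (ℝ × ℝ)).real
        (Metric.closedBall (cen (-(j : ℤ)) x) ((2 : ℝ) ^ (-(j : ℤ)) / 2)) =
        (4 : ℝ) ^ (-(j : ℤ)) := by
      rw [Measure.real, ← measure_congr (ball_ae (-(j : ℤ)) x), DS, vol_sqr,
        ENNReal.toReal_ofReal (by positivity)]
    rw [setAverage_eq, hball, smul_eq_mul]
    congr 1
    rw [← setIntegral_congr_set (ball_ae (-(j : ℤ)) x)]
  · refine tendsto_nhdsWithin_iff.2 ⟨?_, Eventually.of_forall fun j => ?_⟩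
    · have h1 : Tendsto (fun j : ℕ => ((1 : ℝ) / 2) ^ j) atTop (𝓝 0) :=
        tendsto_pow_atTop_nhds_zero_of_lt_one (by norm_num) (by norm_num)
      have h2 := h1.div_const 2
      rw [zero_div] at h2
      refine h2.congr fun j => ?_
      rw [zpow_neg, zpow_natCast, one_div, inv_pow]
    · exact mem_Ioi.2 (by positivity)
  · refine Eventually.of_forall fun j => ?_
    rw [one_mul]
    exact mem_ball _ _

theorem nested {q q' : ℤ} (h : q ≤ q') {x z : ℝ × ℝ} (hz : z ∈ DS q x) : z ∈ DS q' x := by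
  obtain ⟨n, hn⟩ : ∃ n : ℕ, q' = q + n := ⟨(q' - q).toNat, by omega⟩
  have key : ∀ y : ℝ, ⌊y / (2 : ℝ) ^ q'⌋ = ⌊y / (2 : ℝ) ^ q⌋ / (2 ^ n : ℤ) := by
    intro y
    have h1 : y / (2 : ℝ) ^ q' = (y / (2 : ℝ) ^ q) / ((2 ^ n : ℕ) : ℝ) := by
      rw [hn, zpow_add₀ (by norm_num), zpow_natCast, div_div]
      push_cast
      rfl
    rw [h1, Int.floor_div_natCast]
    push_cast
    rfl
  obtain ⟨h1, h2⟩ := hz
  refine ⟨?_, ?_⟩
  · change ⌊z.1 / (2 : ℝ) ^ q'⌋ = ⌊x.1 / (2 : ℝ) ^ q'⌋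
    rw [key, key]
    exact congrArg (fun t => t / (2 ^ n : ℤ)) h1
  · change ⌊z.2 / (2 : ℝ) ^ q'⌋ = ⌊x.2 / (2 : ℝ) ^ q'⌋
    rw [key, key]
    exact congrArg (fun t => t / (2 ^ n : ℤ)) h2

theorem DS_congr {q : ℤ} {x z : ℝ × ℝ} (hz : z ∈ DS q x) : DS q z = DS q x := by
  have h : ix q z = ix q x := Prod.ext hz.1 hz.2
  unfold DS
  rw [h]

theorem DS_congr' {q q' : ℤ} (h : q ≤ q') {x z : ℝ × ℝ} (hz : z ∈ DS q x) : DS q' z = DS q' x :=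
  DS_congr (nested h hz)

/-- selected squares -/
def Sel (F : ℝ × ℝ → ℝ) (lam : ℝ) (s : ℤ × ℤ × ℤ) : Prop :=
  lam * (4 : ℝ) ^ s.1 < (∫ z in SS s, F z) ∧
    ∀ q', s.1 < q' → ∫ z in DS q' (pt s), F z ≤ lam * (4 : ℝ) ^ q'

theorem disj {F : ℝ × ℝ → ℝ} {lam : ℝ} {s t : ℤ × ℤ × ℤ} (hs : Sel F lam s) (ht : Sel F lam t) {x : ℝ × ℝ}
    (hx : x ∈ SS s) (hx' : x ∈ SS t) : s = t := by
  have aux : ∀ s t : ℤ × ℤ × ℤ, Sel F lam s → Sel F lam t → x ∈ SS s → x ∈ SS t → ¬ s.1 < t.1 := by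
    intro s t hs ht hx hx' hlt
    have h1 := hs.2 t.1 hlt
    have h2 : pt s ∈ DS s.1 x := by rw [DS_of_mem hx]; exact pt_mem s
    rw [DS_congr' hlt.le h2, DS_of_mem hx'] at h1
    exact absurd ht.1 (not_lt.2 h1)
  have h1 : s.1 = t.1 :=
    le_antisymm (not_lt.1 (aux t s ht hs hx' hx)) (not_lt.1 (aux s t hs ht hx hx'))
  refine Prod.ext h1 ?_
  rw [← ix_eq hx, ← ix_eq hx', h1]

theorem four_eq (q : ℤ) : (4 : ℝ) ^ (q + 1) = 4 * (4 : ℝ) ^ q := by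
  rw [zpow_add₀ (by norm_num : (4 : ℝ) ≠ 0), zpow_one, mul_comm]

end CZS

open CZS

/-- MODULE CZS. -/
theorem hCZS : StCZS := by
  intro F hF h0 lam hl
  have hFi := intg hF
  refine ⟨{s | Sel F lam s}, ?_, ?_, ?_⟩
  · intro s hs t ht hst
    exact Set.disjoint_left.2 fun x hx hx' => hst (disj hs ht hx hx')
  · intro s hs
    refine ⟨hs.1, ?_⟩
    have h1 : SS s ⊆ DS (s.1 + 1) (pt s) := by
      intro z hz
      have h2 : z ∈ DS s.1 (pt s) := by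
        rw [DS_of_mem (pt_mem s)]
        exact hz
      exact nested (by omega) h2
    have h2 : ∫ z in SS s, F z ≤ ∫ z in DS (s.1 + 1) (pt s), F z :=
      setIntegral_mono_set hFi.integrableOn (ae_of_all _ h0) h1.eventuallyLE
    have h3 := hs.2 (s.1 + 1) (by omega)
    rw [four_eq] at h3
    change ∫ z in SS s, F z ≤ _
    linarith
  · -- large squares have small averages
    have hbig : ∃ J : ℤ, ∀ q : ℤ, ∀ x : ℝ × ℝ, lam * (4 : ℝ) ^ q < ∫ z in DS q x, F z → q ≤ J := by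
      obtain ⟨J, hJ⟩ : ∃ J : ℕ, (∫ z, F z) / lam < (4 : ℝ) ^ J := pow_unbounded_of_one_lt _ (by norm_num)
      refine ⟨J, fun q x hq => ?_⟩
      by_contra hlt
      push Not at hlt
      have h1 : (4 : ℝ) ^ (J : ℤ) ≤ (4 : ℝ) ^ q := zpow_le_zpow_right₀ (by norm_num) hlt.le
      rw [zpow_natCast] at h1
      have h2 : ∫ z in DS q x, F z ≤ ∫ z, F z := setIntegral_le_integral hFi (ae_of_all _ h0)
      rw [div_lt_iff₀ hl] at hJ
      nlinarith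
    obtain ⟨J, hJ⟩ := hbig
    filter_upwards [ld hF] with x hx hno
    have hle : ∀ q : ℤ, ∫ z in DS q x, F z ≤ lam * (4 : ℝ) ^ q := by
      intro q
      by_contra hlt
      push Not at hlt
      obtain ⟨i, hi1, hi2⟩ := Int.exists_greatest_of_bdd
        (P := fun i => lam * (4 : ℝ) ^ i < ∫ z in DS i x, F z) ⟨J, fun i hi => hJ i x hi⟩ ⟨q, hlt⟩
      have hsel : Sel F lam (i, ix i x) := by
        refine ⟨hi1, fun q' hq' => ?_⟩
        have h2 : pt (i, ix i x) ∈ DS i x := pt_mem (i, ix i x)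
        rw [DS_congr' (le_of_lt hq') h2]
        by_contra hlt'
        push Not at hlt'
        have := hi2 q' hlt'
        have h3 : i < q' := hq'
        omega
      exact hno _ hsel (mem_DS i x)
    refine le_of_tendsto' hx fun j => ?_
    have h4 : (0 : ℝ) < (4 : ℝ) ^ (-(j : ℤ)) := by positivity
    rw [inv_mul_le_iff₀ h4, mul_comm]
    exact hle _

end Pool.Agent.Helper81.LM2
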